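import Mathlib

/-! Definitions for interpolated lc thresholds on surfaces, in terms of valuations of the function
field `K`. An affine chart of the surface is a subalgebra `A` of `K`. -/

set_option autoImplicit false

namespace Pool.Agent.MP_c54dba_ag

open Polynomial

/-- Discrete valuations of a field, written additively. -/
abbrev Val (K : Type) [Field K] : Type := AddValuation K (WithTop ℤ)

variable {K : Type} [Field K] [Algebra ℂ K]

/-- The order of `f` along `v`, as an integer. -/
noncomputable def ord (v : Val K) (f : K) : ℤ := (v f).untopD 0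

/-- `v` has value group `ℤ`, a centre on `Spec A`, and some `s ∈ S` has transcendental residue.
For `S = K` these are the prime divisors over `Spec A`, for `S = A` the prime divisors on `Spec A`. -/
def Div (A : Subalgebra ℂ K) (S : Set K) (v : Val K) : Prop :=
  (∃ π, v π = 1) ∧ (∀ a ∈ A, 0 ≤ v a) ∧ ∃ s ∈ S, ∀ p : ℂ[X], p ≠ 0 → v (aeval s p) = 0

/-- Multiplicity along `v` of the canonical divisor `-div (δ 0 ∧ ... ∧ δ (r-1))`. -/
noncomputable def can {r : ℕ} (δ : Fin r → Derivation ℂ K K) (v : Val K) : ℤ :=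
  -sInf {n : ℤ | ∃ f : Fin r → K, (∀ j, 0 ≤ v (f j)) ∧
    v (Matrix.det (Matrix.of fun i j => δ i (f j))) = n}

open Classical in
/-- `0` if the divisor is invariant under the foliation spanned by `δ`, and `1` otherwise. -/
noncomputable def eps {r : ℕ} (δ : Fin r → Derivation ℂ K K) (v : Val K) : ℝ :=
  if ∀ θ ∈ Submodule.span K (Set.range δ), (∀ f, 0 ≤ v f → 0 ≤ v (θ f)) →
    ∀ f, 0 < v f → 0 < v (θ f) then 0 else 1

/-- The `ℝ`-divisor `D` is `ℝ`-Cartier at the centre of `E` on `Spec A`, and its pull-back has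
multiplicity `x` along `E`. -/
def Pull (A : Subalgebra ℂ K) (D : Val K → ℝ) (E : Val K) (x : ℝ) : Prop :=
  ∃ (n : ℕ) (c : Fin n → ℝ) (f : Fin n → K), (∀ i, f i ≠ 0) ∧
    (∀ P, Div A A P → (∀ a ∈ A, 0 < P a → 0 < E a) → D P = ∑ i, c i * ord P (f i)) ∧
    x = ∑ i, c i * ord E (f i)

/-- `D` is `ℝ`-Cartier on the surface with charts `U`. -/
def Cartier (U : Set (Subalgebra ℂ K)) (D : Val K → ℝ) : Prop :=
  ∀ A ∈ U, ∀ E, Div A Set.univ E → ∃ x, Pull A D E x

/-- `(X, F, B^ninv + (1 - t) B^inv, t)` is lc; `δ` spans `F` and `τ` spans `T_X` generically. -/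
def LC {r : ℕ} (U : Set (Subalgebra ℂ K)) (δ : Fin r → Derivation ℂ K K)
    (τ : Fin 2 → Derivation ℂ K K) (B : Val K → ℝ) (t : ℝ) : Prop :=
  ∀ A ∈ U, ∀ E, Div A Set.univ E → ∃ x,
    Pull A (fun P => t * can δ P + (1 - t) * can τ P +
      (eps δ P * B P + (1 - t) * ((1 - eps δ P) * B P))) E x ∧
    x - (t * can δ E + (1 - t) * can τ E) ≤ t * eps δ E + (1 - t)

/-- Quotient singularities: at each closed point there is a finite cover that is smooth at a point
above it and unramified in codimension one there. -/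
def QuotSing (A : Subalgebra ℂ K) : Prop :=
  ∀ m : Ideal A, m.IsMaximal → ∃ (S : Type) (_ : CommRing S) (_ : IsDomain S) (_ : Algebra ℂ S)
    (_ : Algebra A S) (_ : IsScalarTower ℂ A S) (_ : FaithfulSMul A S) (_ : Module.Finite A S)
    (n : Ideal S) (_ : n.IsPrime), n.LiesOver m ∧ Algebra.IsSmoothAt ℂ n ∧
      ∀ (q : Ideal S) (_ : q.IsPrime), q < n → Algebra.IsUnramifiedAt A q

end Pool.Agent.MP_c54dba_ag
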